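import Pool.Agent.H76.Hayashi

set_option autoImplicit false

namespace Pool.Agent.Results.MP_d14d1f_al.Counterexample

open Pool.Agent.H76.Hayashi

/-- The inner automorphism group of the quandle of order 1890. -/
abbrev Inn : Subgroup (Equiv.Perm Q) :=
  Subgroup.closure (Set.range (Rack.act' : Q → Equiv.Perm Q))

/-- The translation by `x`, as an element of the inner automorphism group. -/
def s (x : Q) : Inn := ⟨Rack.act' x, Subgroup.subset_closure ⟨x, rfl⟩⟩

lemma conj_s (g : Inn) (x : Q) : g * s x * g⁻¹ = s (g.1 x) := by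
  obtain ⟨g, hg⟩ := g
  have key : ∀ x : Q, g * Rack.act' x * g⁻¹ = Rack.act' (g x) := by
    induction hg using Subgroup.closure_induction with
    | mem g hg =>
      obtain ⟨y, rfl⟩ := hg
      intro x
      exact (Rack.ad_conj y x).symm
    | one => intro x; simp
    | mul g h _ _ ihg ihh =>
      intro x
      have : g * h * Rack.act' x * (g * h)⁻¹ = g * (h * Rack.act' x * h⁻¹) * g⁻¹ := by group
      rw [this, ihh, ihg]; rfl
    | inv g _ ih =>
      intro x
      have := ih (g⁻¹ x)
      rw [show g (g⁻¹ x) = x by simp] at this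
      rw [← this]; group
  exact Subtype.ext (key x)

lemma isConj_s (z : Inn) : IsConj (s e) z ↔ ∃ y, z = s y := by
  rw [isConj_iff]
  constructor
  · rintro ⟨g, rfl⟩; exact ⟨_, conj_s g e⟩
  · rintro ⟨y, rfl⟩
    obtain ⟨x, x', hx⟩ := two_steps e y
    refine ⟨s x' * s x, ?_⟩
    rw [conj_s]
    exact congrArg s hx

lemma pow_apply (k : ℕ) (y : Q) : ((s e) ^ k).1 y = (op e)^[k] y := by
  simp only [SubmonoidClass.coe_pow, Equiv.Perm.coe_pow]
  rfl

lemma commute_of_fix (g : Inn) (y : Q) (h : g.1 y = y) : Commute g (s y) := by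
  have := conj_s g y
  rw [h] at this
  exact mul_inv_eq_iff_eq_mul.mp this

lemma central_fix (g : Inn) (hg : g ∈ Subgroup.center Inn) (y w : Q) :
    op (g.1 y) w = op y w := by
  have h1 := conj_s g y
  rw [← (Subgroup.mem_center_iff.mp hg (s y)), mul_inv_cancel_right] at h1
  exact (congrArg (fun t : Inn => t.1 w) h1).symm

/-- A finite group `G` generated by the conjugacy class `C` of an element `c` such that for
every `z` in `C` some power of `c` commutes with `z` without being central. -/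
theorem result :
    ∃ (G : Type) (_ : Group G) (_ : Finite G) (c : G),
      Subgroup.closure {x : G | IsConj c x} = ⊤ ∧
      ∀ z : G, IsConj c z → ∃ k : ℤ, Commute (c ^ k) z ∧ c ^ k ∉ Subgroup.center G := by
  refine ⟨Inn, inferInstance, inferInstance, s e, ?_, ?_⟩
  · have : {x : Inn | IsConj (s e) x} =
        ((↑) : Inn → Equiv.Perm Q) ⁻¹' (Set.range (Rack.act' : Q → Equiv.Perm Q)) := by
      ext x
      simp only [Set.mem_ofPred_eq, isConj_s, Set.mem_preimage, Set.mem_range]
      constructor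
      · rintro ⟨y, rfl⟩; exact ⟨y, rfl⟩
      · rintro ⟨y, hy⟩; exact ⟨y, Subtype.ext hy.symm⟩
    rw [this]
    exact Subgroup.closure_closure_coe_preimage
  · intro z hz
    obtain ⟨y, rfl⟩ := (isConj_s z).mp hz
    suffices h : ∃ k : ℕ, (op e)^[2 * k] y = y ∧
        ∃ y' w : Q, op ((op e)^[2 * k] y') w ≠ op y' w by
      obtain ⟨k, h1, y', w, h2⟩ := h
      refine ⟨((2 * k : ℕ) : ℤ), ?_, ?_⟩
      · rw [zpow_natCast]
        exact commute_of_fix _ _ (by rw [pow_apply, h1])
      · rw [zpow_natCast]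
        intro hc
        exact h2 (by rw [← pow_apply]; exact central_fix _ hc y' w)
    obtain ⟨u, v, a, b, c, d⟩ := y
    have hc : ∀ s t : Fin 3, s = 0 ∨ t = 0 ∨ s + t = 0 ∨ s - t = 0 := by decide
    rcases hc u v with h0 | h0 | h0 | h0
    · refine ⟨105, ?_, ⟨1, 0, 0, 0, 0, 0⟩, e, ?_⟩
      · rw [iter]; simp only [h0]
        have e3 : ((105 : ℕ) : ZMod 3) = 0 := by decide
        have e5 : ((105 : ℕ) : ZMod 5) = 0 := by decide
        have e7 : ((105 : ℕ) : ZMod 7) = 0 := by decide
        rw [e3, e5, e7]; simp [tr]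
      · rw [iter]; decide
    · refine ⟨70, ?_, ⟨0, 1, 0, 0, 0, 0⟩, e, ?_⟩
      · rw [iter]; simp only [h0]
        have e3 : ((70 : ℕ) : ZMod 2) = 0 := by decide
        have e5 : ((70 : ℕ) : ZMod 5) = 0 := by decide
        have e7 : ((70 : ℕ) : ZMod 7) = 0 := by decide
        rw [e3, e5, e7]; simp [tr]
      · rw [iter]; decide
    · refine ⟨42, ?_, ⟨1, 0, 0, 0, 0, 0⟩, e, ?_⟩
      · rw [iter]; simp only [h0]
        have e3 : ((42 : ℕ) : ZMod 2) = 0 := by decide
        have e5 : ((42 : ℕ) : ZMod 3) = 0 := by decide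
        have e7 : ((42 : ℕ) : ZMod 7) = 0 := by decide
        rw [e3, e5, e7]; simp [tr]
      · rw [iter]; decide
    · refine ⟨30, ?_, ⟨1, 0, 0, 0, 0, 0⟩, e, ?_⟩
      · rw [iter]; simp only [h0]
        have e3 : ((30 : ℕ) : ZMod 2) = 0 := by decide
        have e5 : ((30 : ℕ) : ZMod 3) = 0 := by decide
        have e7 : ((30 : ℕ) : ZMod 5) = 0 := by decide
        rw [e3, e5, e7]; simp [tr]
      · rw [iter]; decide

end Pool.Agent.Results.MP_d14d1f_al.Counterexample
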